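import Pool.Agent.V5helper23.PF.Stm

set_option autoImplicit false
set_option linter.all false

open MeasureTheory Set Real Filter Topology
open scoped ENNReal

namespace Pool.Agent.V5helper23.PF

open Pool.Agent.Y308.BC Pool.Agent.V5helper93.NS

theorem t_BND : S_BND := by
  intro σ s0 hσ hs0
  set K' : ℝ := Cc * (√2 * (8 / s0 ^ 2 * ∑' n, dd n)) with hK'
  set D : ℝ := max (7 / σ) (2 / s0) with hD
  have hD0 : 0 ≤ D := le_trans (by positivity) (le_max_left _ _)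
  have hK0 : 0 ≤ K' := by
    have := Cc_pos
    have := ddsum_nonneg
    positivity
  have hs1 : Summable fun i => maj (8 * D) i := maj_summable (by positivity)
  have hs2 : Summable fun i => maj (8 * D) (i + 1) := (summable_nat_add_iff 1).2 hs1
  have n1 : 0 ≤ ∑' i, maj (8 * D) i := tsum_nonneg fun i => maj_nonneg (by positivity) i
  have n2 : 0 ≤ ∑' i, maj (8 * D) (i + 1) := tsum_nonneg fun i => maj_nonneg (by positivity) _
  refine ⟨2 * K' * (∑' i, maj (8 * D) i) + 2 * K' * (∑' i, maj (8 * D) (i + 1)), by positivity, ?_⟩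
  intro c m hm hc t x ht hx
  have hA : ∀ i, ∀ s ∈ Ici s0, |A c σ i s| ≤ (K' * m) * wD D i :=
    fun i s hs => A_le hm hc hσ hs0 i hs
  have hKm : 0 ≤ K' * m := mul_nonneg hK0 hm
  have b1 : ∀ {f : ℕ → ℝ}, (∀ i, |f i| ≤ 2 * (K' * m) * maj (8 * D) i) → |∑' i, f i| ≤
      (2 * K' * (∑' i, maj (8 * D) i) + 2 * K' * (∑' i, maj (8 * D) (i + 1))) * m := by
    intro f hf
    have h1 : ‖∑' i, f i‖ ≤ ∑' i, 2 * (K' * m) * maj (8 * D) i :=
      tsum_of_norm_bounded (hs1.mul_left _).hasSum hf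
    rw [tsum_mul_left] at h1
    have h2 : 0 ≤ 2 * K' * (∑' i, maj (8 * D) (i + 1)) * m := by positivity
    calc |∑' i, f i| ≤ 2 * (K' * m) * ∑' i, maj (8 * D) i := h1
      _ ≤ _ := by linarith
  have b2 : ∀ {f : ℕ → ℝ}, (∀ i, |f i| ≤ 2 * (K' * m) * maj (8 * D) (i + 1)) → |∑' i, f i| ≤
      (2 * K' * (∑' i, maj (8 * D) i) + 2 * K' * (∑' i, maj (8 * D) (i + 1))) * m := by
    intro f hf
    have h1 : ‖∑' i, f i‖ ≤ ∑' i, 2 * (K' * m) * maj (8 * D) (i + 1) :=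
      tsum_of_norm_bounded (hs2.mul_left _).hasSum hf
    rw [tsum_mul_left] at h1
    have h2 : 0 ≤ 2 * K' * (∑' i, maj (8 * D) i) * m := by positivity
    calc |∑' i, f i| ≤ 2 * (K' * m) * ∑' i, maj (8 * D) (i + 1) := h1
      _ ≤ _ := by linarith
  exact ⟨b1 fun i => t0_le hD0 hKm hA ht hx i, b1 fun i => t1_le hD0 hKm hA ht hx i,
    b2 fun i => t2_le hD0 hKm hA ht hx i⟩

end Pool.Agent.V5helper23.PF
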