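import Pool.Agent.V5helper23.PF.Main
import Pool.Agent.V5helper23.PF.BND
import Pool.Agent.V5helper86.PF.DX
import Pool.Agent.V5helper73.PF.COE
import Pool.Agent.V5helper29.PF.ENX
import Pool.Agent.V5helper59.PF.Cont
import Pool.Agent.V5helper80.PF.DT
import Pool.Agent.V5helper29.PF.INI
import Pool.Agent.V5helper6.PF.ENY
import Pool.Agent.V5helper17.PF.SCA

set_option autoImplicit false

open MeasureTheory Set

namespace Pool.Agent.V5helper23.PF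

open Pool.Agent.V5helper93.NS

/-- parallel flows in rectangular pipes -/
theorem final {d : ℕ} {Ω W : Set (Sp (d + 2))} {l0 l1 T : ℝ} (hΩo : IsOpen Ω)
    (hΩb : Bornology.IsBounded Ω) (h0 : 0 < l0) (h1 : 0 < l1) (hT : 0 < T)
    (hΩ : ∀ x ∈ Ω, x 0 ∈ Ioo 0 l0 ∧ x 1 ∈ Ioo 0 l1)
    (hW : ∀ x ∈ W, x 0 = 0 ∨ x 1 = 0 ∨ x 1 = l1)
    (f : Fin (d + 2) → ℝ × ℝ → ℝ) (hf0 : ∀ y, f 0 y = 0) (hf1 : ∀ y, f 1 y = 0)
    (hf : ∀ i, MemLp (f i) 2 (volume.restrict (Ioo 0 l0 ×ˢ Ioo 0 l1))) :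
    ∃ u, IsTrajectory Ω W T (fun x i => f i (x 0, x 1)) u (fun _ _ => 0) ∧
      ∀ x ∈ closure Ω, u T x = 0 :=
  have hB := t_BND
  have hC := Pool.Agent.V5helper59.PF.t_CON hB
  have hE := Pool.Agent.V5helper73.PF.t_COE
  main hC (Pool.Agent.V5helper86.PF.t_DX hB) (Pool.Agent.V5helper80.PF.t_DT hB) hE
    (Pool.Agent.V5helper29.PF.t_INI hE hB hC) (Pool.Agent.V5helper29.PF.t_ENX hE hB hC)
    (Pool.Agent.V5helper6.PF.t_ENY hE hB hC) t_TRA Pool.Agent.V5helper17.PF.t_SCA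
    hΩo hΩb h0 h1 hT hΩ hW f hf0 hf1 hf

end Pool.Agent.V5helper23.PF
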