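import Pool.Agent.V5helper23.PF.Main2
import Pool.Agent.V5helper22.PF.DSC
import Pool.Agent.V5helper76.PF.CMP
import Pool.Agent.V5helper1.PF.LIN
import Pool.Agent.V5helper31.PF.GEO

set_option autoImplicit false

open MeasureTheory Set Real

namespace Pool.Agent.V5helper23.PF

open Pool.Agent.V5helper93.NS

/-- parallel flows in wedges -/
theorem final2 {d : ℕ} {Ω W : Set (Sp (d + 2))} {R T : ℝ} {m : ℕ} (hΩo : IsOpen Ω)
    (hΩb : Bornology.IsBounded Ω) (hm : 1 ≤ m) (hR : 0 < R) (hT : 0 < T)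
    (hΩ : ∀ x ∈ Ω, (x 0, x 1) ∈ disc R ∩ sector m)
    (hW : ∀ x ∈ W, x 1 = 0 ∨ x 1 * cos (π / m) = x 0 * sin (π / m))
    (f : Fin (d + 2) → ℝ × ℝ → ℝ) (hf0 : ∀ y, f 0 y = 0) (hf1 : ∀ y, f 1 y = 0)
    (hf : ∀ i, MemLp (f i) 2 (volume.restrict (disc R ∩ sector m))) :
    ∃ u, IsTrajectory Ω W T (fun x i => f i (x 0, x 1)) u (fun _ _ => 0) ∧
      ∀ x ∈ closure Ω, u T x = 0 :=
  main2 Pool.Agent.V5helper22.PF.t_DSC Pool.Agent.V5helper76.PF.t_CMP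
    V5helper1.PF.t_LIN Pool.Agent.V5helper31.PF.t_GEO
    hΩo hΩb hm hR hT hΩ hW f hf0 hf1 hf

end Pool.Agent.V5helper23.PF
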