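import Pool.Agent.V5helper23.PF.TRA

set_option autoImplicit false
set_option linter.all false

open MeasureTheory Set Filter Topology
open scoped ENNReal

namespace Pool.Agent.V5helper23.PF

open Pool.Agent.Y308.BC Pool.Agent.V5helper93.NS

lemma prof_zero (a b T : ℝ) : Prof a b T (fun _ => 0) (fun _ _ _ => 0) (fun _ _ _ => 0)
    (fun _ _ _ => 0) (fun _ _ _ => 0) (fun _ _ _ => 0) (fun _ _ _ => 0) where
  cont := continuousOn_const
  cxx := fun t _ => continuousOn_const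
  cxy := fun t _ => continuousOn_const
  cyy := fun t _ => continuousOn_const
  d1 := fun t _ p _ => by simpa using hasFDerivAt_const (0:ℝ) p
  dx := fun t _ p _ => by simpa using hasFDerivAt_const (0:ℝ) p
  dy := fun t _ p _ => by simpa using hasFDerivAt_const (0:ℝ) p
  dt := fun t _ p _ => by simpa using hasDerivAt_const t (0:ℝ)
  wall := fun t _ z => ⟨rfl, rfl, rfl⟩
  init := by simp
  fin := fun _ _ => rfl
  ex := by simp [IntegrableOn]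
  ey := by simp [IntegrableOn]
  meas := aemeasurable_const

lemma prof (hCON : S_CON) (hDX : S_DX) (hDT : S_DT) (hCOE : S_COE) (hINI : S_INI)
    (hENX : S_ENX) (hENY : S_ENY) {a b T : ℝ} (ha : 0 < a) (hb : 0 < b) (hT : 0 < T)
    {F : ℝ × ℝ → ℝ} (hF : MemLp F 2 (volume.restrict sq)) :
    Prof a b T F (V a b (a * T / 2) (cy F)) (Vx a b (a * T / 2) (cy F))
      (Vy a b (a * T / 2) (cy F)) (Vxx a b (a * T / 2) (cy F)) (Vxy a b (a * T / 2) (cy F))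
      (Vyy a b (a * T / 2) (cy F)) := by
  have hσ : 0 < a * T / 2 := by positivity
  obtain ⟨-, -, -, m, hm⟩ := hCOE.1 F hF
  obtain ⟨c1, c2, c3, c4, c5, c6⟩ := hCON a b _ m _ ha hb hσ hm
  have hsl : ∀ {g : ℝ × ℝ × ℝ → ℝ}, ContinuousOn g (Ioi 0 ×ˢ Icc 0 1 ×ˢ Icc 0 1) →
      ∀ t ∈ Ioc 0 T, ContinuousOn (fun p : ℝ × ℝ => g (t, p.1, p.2)) sq := by
    intro g hg t ht
    exact hg.comp (f := fun p : ℝ × ℝ => (t, p.1, p.2)) (by fun_prop)
      fun p hp => ⟨ht.1, Ioo_subset_Icc_self hp.1, Ioo_subset_Icc_self hp.2⟩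
  refine ⟨c1.mono (prod_mono Ioc_subset_Ioi_self le_rfl), hsl c4, hsl c5, hsl c6,
    fun t ht p hp => (hDX a b _ m _ ha hb hσ hm t ht.1 p hp).1,
    fun t ht p hp => (hDX a b _ m _ ha hb hσ hm t ht.1 p hp).2.1,
    fun t ht p hp => (hDX a b _ m _ ha hb hσ hm t ht.1 p hp).2.2,
    fun t ht p hp => hDT a b _ m _ ha hb hσ hm t p.1 p.2 ht.1 hp.1 hp.2,
    fun t ht z => ⟨?_, ?_, ?_⟩, hINI a b _ F ha hb hσ hF, fun x y => ?_,
    hENX a b _ T F ha hb hσ hF, hENY a b _ T F ha hb hσ hF,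
    hF.aestronglyMeasurable.aemeasurable⟩
  · unfold V; simp [w_zero]
  · unfold V; simp [es_zero]
  · unfold V; simp [es_one]
  · unfold V
    have : ∀ k, w (cy F k) (a * T / 2) (a * T) x = 0 := fun k => w_late _ hσ (by linarith) x
    simp [this]

theorem main (hCON : S_CON) (hDX : S_DX) (hDT : S_DT) (hCOE : S_COE) (hINI : S_INI)
    (hENX : S_ENX) (hENY : S_ENY) (hTRA : S_TRA) (hSCA : S_SCA)
    {d : ℕ} {Ω W : Set (Sp (d + 2))} {l0 l1 T : ℝ} (hΩo : IsOpen Ω)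
    (hΩb : Bornology.IsBounded Ω) (h0 : 0 < l0) (h1 : 0 < l1) (hT : 0 < T)
    (hΩ : ∀ x ∈ Ω, x 0 ∈ Ioo 0 l0 ∧ x 1 ∈ Ioo 0 l1)
    (hW : ∀ x ∈ W, x 0 = 0 ∨ x 1 = 0 ∨ x 1 = l1)
    (f : Fin (d + 2) → ℝ × ℝ → ℝ) (hf0 : ∀ y, f 0 y = 0) (hf1 : ∀ y, f 1 y = 0)
    (hf : ∀ i, MemLp (f i) 2 (volume.restrict (Ioo 0 l0 ×ˢ Ioo 0 l1))) :
    ∃ u, IsTrajectory Ω W T (fun x i => f i (x 0, x 1)) u (fun _ _ => 0) ∧
      ∀ x ∈ closure Ω, u T x = 0 := by
  classical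
  have h' : ∀ i, ∃ (v vx vy vxx vxy vyy : ℝ → ℝ → ℝ → ℝ),
      Prof (1 / l0 ^ 2) (1 / l1 ^ 2) T (fun p => f i (l0 * p.1, l1 * p.2)) v vx vy vxx vxy vyy ∧
      (i = 0 ∨ i = 1 → ∀ t x y, v t x y = 0) := by
    intro i
    by_cases hi : i = 0 ∨ i = 1
    · have e : (fun p : ℝ × ℝ => f i (l0 * p.1, l1 * p.2)) = fun _ => 0 := by
        funext p
        rcases hi with rfl | rfl
        · exact hf0 _
        · exact hf1 _
      rw [e]
      exact ⟨_, _, _, _, _, _, prof_zero _ _ _, fun _ _ _ _ => rfl⟩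
    · exact ⟨_, _, _, _, _, _, prof hCON hDX hDT hCOE hINI hENX hENY (by positivity)
        (by positivity) hT (hSCA l0 l1 (f i) h0 h1 (hf i)), fun h => absurd h hi⟩
  choose v vx vy vxx vxy vyy hP hv using h'
  obtain ⟨a1, a2⟩ := hTRA hΩo hΩb h0 h1 hT hΩ hW hP (hv 0 (Or.inl rfl)) (hv 1 (Or.inr rfl))
  have e : (fun (x : Sp (d + 2)) i => (fun p : ℝ × ℝ => f i (l0 * p.1, l1 * p.2))
      (x 0 / l0, x 1 / l1)) = fun x i => f i (x 0, x 1) := by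
    funext x i
    show f i (l0 * (x 0 / l0), l1 * (x 1 / l1)) = _
    rw [mul_div_cancel₀ _ h0.ne', mul_div_cancel₀ _ h1.ne']
  rw [e] at a1
  refine ⟨_, a1, fun x hx => ?_⟩
  funext i
  exact a2 x hx i

end Pool.Agent.V5helper23.PF
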