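import Pool.Agent.V5helper23.PF.TR2

set_option autoImplicit false
set_option linter.all false

open MeasureTheory Set Filter Topology Real
open scoped ENNReal

namespace Pool.Agent.V5helper23.PF

open Pool.Agent.V5helper93.NS

lemma hp_zero (D : Set (ℝ × ℝ)) (T : ℝ) : HP D T (fun _ => 0) (fun _ _ => 0) := by
  refine ⟨fun _ _ => 0, fun _ _ => 0, fun _ _ => 0, fun _ _ => 0, fun _ _ => 0, ?_⟩
  exact
    { cont := continuousOn_const
      cxx := fun t _ => continuousOn_const
      cxy := fun t _ => continuousOn_const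
      cyy := fun t _ => continuousOn_const
      d1 := fun t _ p _ => by simpa using hasFDerivAt_const (0:ℝ) p
      dx := fun t _ p _ => by simpa using hasFDerivAt_const (0:ℝ) p
      dy := fun t _ p _ => by simpa using hasFDerivAt_const (0:ℝ) p
      dt := fun t _ p _ => by simpa using hasDerivAt_const t (0:ℝ)
      init := by simp
      fin := fun _ _ => rfl
      ex := by simp [IntegrableOn]
      ey := by simp [IntegrableOn]
      meas := aemeasurable_const }

lemma disc_open (R : ℝ) : IsOpen (disc R) := by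
  unfold disc
  exact isOpen_lt (by fun_prop) continuous_const

lemma sector_open (m : ℕ) : IsOpen (sector m) := by
  have h1 : IsOpen {p : ℝ × ℝ | 0 < p.2} := isOpen_lt continuous_const continuous_snd
  have h2 : IsOpen {p : ℝ × ℝ | p.2 * cos (π / m) < p.1 * sin (π / m)} :=
    isOpen_lt (by fun_prop) (by fun_prop)
  exact h1.inter h2

lemma hp_anti (hCMP : S_CMP) (hLIN : S_LIN) {R T : ℝ} (hR : 0 < R) (hT : 0 < T) (m : ℕ)
    {F : ℝ × ℝ → ℝ} {v : ℝ → ℝ × ℝ → ℝ} (h : HP (disc R) T F v) :
    HP (disc R) T (anti m F) (fun t => anti m (v t)) := by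
  have key : ∀ n : ℕ, HP (disc R) T
      (fun p => ∑ j ∈ Finset.range n, (F (rot m j p) - F (ref m j p)))
      (fun t p => ∑ j ∈ Finset.range n, (v t (rot m j p) - v t (ref m j p))) := by
    intro n
    induction n with
    | zero => simpa using hp_zero (disc R) T
    | succ n ih =>
      have cs := Real.cos_sq_add_sin_sq (2 * π * n / m)
      have h1 := hCMP R T (cos (2 * π * n / m)) (-sin (2 * π * n / m)) (sin (2 * π * n / m))
        (cos (2 * π * n / m)) F v hR hT (by linarith [cs, neg_sq (sin (2 * π * n / m))])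
        (by linarith) (by ring) (by linarith) (by linarith [neg_sq (sin (2 * π * n / m))])
        (by ring) h
      have h2 := hCMP R T (cos (2 * π * n / m)) (sin (2 * π * n / m)) (sin (2 * π * n / m))
        (-cos (2 * π * n / m)) F v hR hT (by linarith)
        (by linarith [neg_sq (cos (2 * π * n / m))]) (by ring) (by linarith)
        (by linarith [neg_sq (cos (2 * π * n / m))]) (by ring) h
      have h3 := hLIN (disc R) T 1 _ _ _ _ (disc_open R) hT ih h1
      have h4 := hLIN (disc R) T (-1) _ _ _ _ (disc_open R) hT h3 h2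
      convert h4 using 1
      · funext p
        rw [Finset.sum_range_succ]
        simp only [rot, ref]
        ring
      · funext t p
        rw [Finset.sum_range_succ]
        simp only [rot, ref]
        ring
  exact key m

theorem main2 (hDSC : S_DSC) (hCMP : S_CMP) (hLIN : S_LIN) (hGEO : S_GEO)
    {d : ℕ} {Ω W : Set (Sp (d + 2))} {R T : ℝ} {m : ℕ} (hΩo : IsOpen Ω)
    (hΩb : Bornology.IsBounded Ω) (hm : 1 ≤ m) (hR : 0 < R) (hT : 0 < T)
    (hΩ : ∀ x ∈ Ω, (x 0, x 1) ∈ disc R ∩ sector m)
    (hW : ∀ x ∈ W, x 1 = 0 ∨ x 1 * cos (π / m) = x 0 * sin (π / m))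
    (f : Fin (d + 2) → ℝ × ℝ → ℝ) (hf0 : ∀ y, f 0 y = 0) (hf1 : ∀ y, f 1 y = 0)
    (hf : ∀ i, MemLp (f i) 2 (volume.restrict (disc R ∩ sector m))) :
    ∃ u, IsTrajectory Ω W T (fun x i => f i (x 0, x 1)) u (fun _ _ => 0) ∧
      ∀ x ∈ closure Ω, u T x = 0 := by
  classical
  have hSo : IsOpen (disc R ∩ sector m) := (disc_open R).inter (sector_open m)
  set F : Fin (d + 2) → ℝ × ℝ → ℝ := fun i => (disc R ∩ sector m).indicator (f i) with hF
  have h' : ∀ i, ∃ v, HP (disc R) T (F i) v ∧ (i = 0 ∨ i = 1 → ∀ t p, v t p = 0) := by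
    intro i
    by_cases hi : i = 0 ∨ i = 1
    · have e : F i = fun _ => 0 := by
        have e1 : f i = fun _ => 0 := by
          funext p
          rcases hi with rfl | rfl
          · exact hf0 _
          · exact hf1 _
        simp only [hF, e1]
        exact indicator_zero _ _
      rw [e]
      exact ⟨_, hp_zero _ _, fun _ _ _ => rfl⟩
    · have h1 : MemLp (F i) 2 (volume.restrict (disc R)) :=
        ((memLp_indicator_iff_restrict hSo.measurableSet).2 (hf i)).restrict _
      obtain ⟨v, hv⟩ := hDSC R T (F i) hR hT h1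
      exact ⟨v, hv, fun h => absurd h hi⟩
  choose v hv hz using h'
  have ha : ∀ i, HP (disc R) T (anti m (F i)) (fun t => anti m (v i t)) :=
    fun i => hp_anti hCMP hLIN hR hT m (hv i)
  obtain ⟨a1, a2⟩ := t_TR2 (W := W) (v := fun i t => anti m (v i t)) hΩo hΩb (disc_open R) hT
    (fun x hx => (hΩ x hx).1) ha
    (fun x hx i t ht => by
      rcases hW x hx with h | h
      · exact (hGEO m hm (v i t)).1 (x 0, x 1) h
      · exact (hGEO m hm (v i t)).2.1 (x 0, x 1) h)
    (fun t p => by simp [anti, hz 0 (Or.inl rfl)])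
    (fun t p => by simp [anti, hz 1 (Or.inr rfl)])
  refine ⟨_, IsTrajectory.congr_init (d := d + 1) hΩo a1 (fun x hx => ?_), fun x hx => ?_⟩
  · funext i
    have h1 := (hGEO m hm (F i)).2.2 (fun p hp => by
      simp only [hF]
      exact indicator_of_notMem (fun h => hp h.2) _) (x 0, x 1) (hΩ x hx).2
    show anti m (F i) (x 0, x 1) = f i (x 0, x 1)
    rw [h1]
    simp only [hF]
    exact indicator_of_mem (hΩ x hx) _
  · funext i
    exact a2 x hx i

end Pool.Agent.V5helper23.PF
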