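import Pool.Agent.V5helper93.NS.Main

/-! # PROJECT PF: parallel flows in rectangular pipes (MP_79abb3_an): statements of the jobs -/

set_option autoImplicit false
set_option linter.all false

open MeasureTheory Set Real Filter Topology intervalIntegral
open scoped ENNReal NNReal

namespace Pool.Agent.V5helper23.PF

open Pool.Agent.Y308.BC Pool.Agent.V5helper93.NS

/-- the unit square -/
abbrev sq : Set (ℝ × ℝ) := Ioo (0:ℝ) 1 ×ˢ Ioo (0:ℝ) 1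

/-- the controlled solution of `V_t = a V_xx + b V_yy`: `w (c k) σ` is the controlled solution of the
one-dimensional heat equation (`V5helper93/NS/Heat1.lean`), free in `y` -/
noncomputable def V (a b σ : ℝ) (c : ℕ → ℝ → ℝ) (t x y : ℝ) : ℝ :=
  ∑' k, w (c k) σ (a * t) x * (Real.exp (-(lam k) * (b * t)) * es k y)
noncomputable def Vx (a b σ : ℝ) (c : ℕ → ℝ → ℝ) (t x y : ℝ) : ℝ :=
  ∑' k, wx (c k) σ (a * t) x * (Real.exp (-(lam k) * (b * t)) * es k y)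
noncomputable def Vxx (a b σ : ℝ) (c : ℕ → ℝ → ℝ) (t x y : ℝ) : ℝ :=
  ∑' k, wxx (c k) σ (a * t) x * (Real.exp (-(lam k) * (b * t)) * es k y)
noncomputable def Vy (a b σ : ℝ) (c : ℕ → ℝ → ℝ) (t x y : ℝ) : ℝ :=
  ∑' k, w (c k) σ (a * t) x * (Real.exp (-(lam k) * (b * t)) * (kk k * ec k y))
noncomputable def Vxy (a b σ : ℝ) (c : ℕ → ℝ → ℝ) (t x y : ℝ) : ℝ :=
  ∑' k, wx (c k) σ (a * t) x * (Real.exp (-(lam k) * (b * t)) * (kk k * ec k y))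
noncomputable def Vyy (a b σ : ℝ) (c : ℕ → ℝ → ℝ) (t x y : ℝ) : ℝ :=
  ∑' k, w (c k) σ (a * t) x * (Real.exp (-(lam k) * (b * t)) * (-(lam k) * es k y))

/-- the sine coefficients in `y` -/
noncomputable def cy (F : ℝ × ℝ → ℝ) (k : ℕ) (x : ℝ) : ℝ := cf (es k) (fun y => F (x, y))

/-- a common bound of all coefficients -/
def Bd (c : ℕ → ℝ → ℝ) (m : ℝ) : Prop := 0 ≤ m ∧ ∀ k n, |cf (es n) (c k)| ≤ m

/-- JOB BND. From `A_le` (Heat1), `t0_le`, `t1_le`, `t2_le`, `S8`, `S8'` (Y308/BC/Series.lean):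
`K = ∑ 2 K' maj (8 D) i` with `K' = Cc * (√2 * (8 / s0 ^ 2 * ∑' n, dd n))`, `D = max (7/σ) (2/s0)`. -/
def S_BND : Prop := ∀ σ s0 : ℝ, 0 < σ → 0 < s0 → ∃ K : ℝ, 0 ≤ K ∧ ∀ (c : ℝ → ℝ) (m : ℝ), 0 ≤ m →
  (∀ n, |cf (es n) c| ≤ m) → ∀ t x : ℝ, s0 ≤ t → |x| ≤ 2 →
    |w c σ t x| ≤ K * m ∧ |wx c σ t x| ≤ K * m ∧ |wxx c σ t x| ≤ K * m

/-- JOB CON. Continuity of the sums for positive times: uniform convergence on `t ≥ s0` by BND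
(terms at most `K m C (1 + lam k) exp (- lam k b s0)`), terms continuous by `w_cont`, `wx_cont`,
`wxx_cont` (Heat1), `continuousOn_tsum`, then glue as in `NS.glue`. -/
def S_CON : Prop := ∀ (a b σ m : ℝ) (c : ℕ → ℝ → ℝ), 0 < a → 0 < b → 0 < σ → Bd c m →
  ContinuousOn (fun q : ℝ × ℝ × ℝ => V a b σ c q.1 q.2.1 q.2.2) (Ioi 0 ×ˢ Icc 0 1 ×ˢ Icc 0 1) ∧
  ContinuousOn (fun q : ℝ × ℝ × ℝ => Vx a b σ c q.1 q.2.1 q.2.2) (Ioi 0 ×ˢ Icc 0 1 ×ˢ Icc 0 1) ∧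
  ContinuousOn (fun q : ℝ × ℝ × ℝ => Vy a b σ c q.1 q.2.1 q.2.2) (Ioi 0 ×ˢ Icc 0 1 ×ˢ Icc 0 1) ∧
  ContinuousOn (fun q : ℝ × ℝ × ℝ => Vxx a b σ c q.1 q.2.1 q.2.2) (Ioi 0 ×ˢ Icc 0 1 ×ˢ Icc 0 1) ∧
  ContinuousOn (fun q : ℝ × ℝ × ℝ => Vxy a b σ c q.1 q.2.1 q.2.2) (Ioi 0 ×ˢ Icc 0 1 ×ˢ Icc 0 1) ∧
  ContinuousOn (fun q : ℝ × ℝ × ℝ => Vyy a b σ c q.1 q.2.1 q.2.2) (Ioi 0 ×ˢ Icc 0 1 ×ˢ Icc 0 1)

/-- JOB DX. Derivatives in space, term by term (`hasFDerivAt_tsum_of_isPreconnected` on the open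
square, or `hasDerivAt_tsum_of_isPreconnected`; bounds by BND). -/
def S_DX : Prop := ∀ (a b σ m : ℝ) (c : ℕ → ℝ → ℝ), 0 < a → 0 < b → 0 < σ → Bd c m →
  ∀ t : ℝ, 0 < t → ∀ p ∈ sq,
  HasFDerivAt (fun p : ℝ × ℝ => V a b σ c t p.1 p.2)
    (Vx a b σ c t p.1 p.2 • ContinuousLinearMap.fst ℝ ℝ ℝ +
      Vy a b σ c t p.1 p.2 • ContinuousLinearMap.snd ℝ ℝ ℝ) p ∧
  HasFDerivAt (fun p : ℝ × ℝ => Vx a b σ c t p.1 p.2)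
    (Vxx a b σ c t p.1 p.2 • ContinuousLinearMap.fst ℝ ℝ ℝ +
      Vxy a b σ c t p.1 p.2 • ContinuousLinearMap.snd ℝ ℝ ℝ) p ∧
  HasFDerivAt (fun p : ℝ × ℝ => Vy a b σ c t p.1 p.2)
    (Vxy a b σ c t p.1 p.2 • ContinuousLinearMap.fst ℝ ℝ ℝ +
      Vyy a b σ c t p.1 p.2 • ContinuousLinearMap.snd ℝ ℝ ℝ) p

/-- JOB DT. The heat equation (`w_dt` of Heat1, `hasDerivAt_tsum_of_isPreconnected` on `s > t/2`). -/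
def S_DT : Prop := ∀ (a b σ m : ℝ) (c : ℕ → ℝ → ℝ), 0 < a → 0 < b → 0 < σ → Bd c m →
  ∀ t x y : ℝ, 0 < t → x ∈ Ioo (0:ℝ) 1 → y ∈ Ioo (0:ℝ) 1 →
  HasDerivAt (fun s => V a b σ c s x y) (a * Vxx a b σ c t x y + b * Vyy a b σ c t x y) t

/-- JOB COE. Coefficients of a square integrable function of two variables (Fubini; Parseval
`hasSum_es`; `bessel_es`). The last clause: `w (c k) σ s` is a contraction for `s ≤ σ`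
(`cf_w`, `hasSum_es`, `w_slice` of NS/Heat2). -/
def S_COE : Prop := (∀ F : ℝ × ℝ → ℝ, MemLp F 2 (volume.restrict sq) →
    (∀ k, MemLp (cy F k) 2 mu) ∧ (∀ᵐ x ∂mu, MemLp (fun y => F (x, y)) 2 mu) ∧
    (Summable fun k => ∫ x in (0:ℝ)..1, cy F k x ^ 2) ∧ ∃ m, Bd (cy F) m) ∧
  ∀ (c : ℝ → ℝ) (σ s : ℝ), MemLp c 2 mu → 0 < s → s ≤ σ →
    ∫ x in (0:ℝ)..1, w c σ s x ^ 2 ≤ ∫ x in (0:ℝ)..1, c x ^ 2

/-- JOB INI. Initial value: for a.e. `x`, by Parseval in `y`,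
`∫ (V t x y - F (x, y))² dy = ∑_k (w (c k) σ (a t) x e_k(t) - c_k(x))²`, integrate over `x`, each term
tends to zero (`w_init`), dominated by `4 ∫ c_k²` (COE): `tendsto_tsum_of_dominated_convergence`. -/
def S_INI : Prop := ∀ (a b σ : ℝ) (F : ℝ × ℝ → ℝ), 0 < a → 0 < b → 0 < σ →
  MemLp F 2 (volume.restrict sq) →
  Tendsto (fun t => ∫⁻ p in sq, ENNReal.ofReal ((V a b σ (cy F) t p.1 p.2 - F p) ^ 2))
    (𝓝[>] 0) (𝓝 0)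

/-- JOB ENX. The energy, x-derivative: for `a t ≤ σ` Parseval in `y` and `wx_sq` (NS/Heat2), `g_int`,
as in NS/Heat3; for larger `t` continuity on a compact set (CON). -/
def S_ENX : Prop := ∀ (a b σ T : ℝ) (F : ℝ × ℝ → ℝ), 0 < a → 0 < b → 0 < σ →
  MemLp F 2 (volume.restrict sq) →
  IntegrableOn (fun q : ℝ × ℝ × ℝ => Vx a b σ (cy F) q.1 q.2.1 q.2.2 ^ 2) (Ioo 0 T ×ˢ sq)

/-- JOB ENY. The energy, y-derivative: for `a t ≤ σ`, Parseval in `y` with the cosines,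
`∫ Vy² dy = ∑ lam k e_k(t)² w(c_k)²`, and `∫ lam k e_k(t)² dt ≤ 1/(2b)`, COE. -/
def S_ENY : Prop := ∀ (a b σ T : ℝ) (F : ℝ × ℝ → ℝ), 0 < a → 0 < b → 0 < σ →
  MemLp F 2 (volume.restrict sq) →
  IntegrableOn (fun q : ℝ × ℝ × ℝ => Vy a b σ (cy F) q.1 q.2.1 q.2.2 ^ 2) (Ioo 0 T ×ˢ sq)

/-- A profile of a parallel flow: solution of `V_t = a V_xx + b V_yy` on the unit square. -/
structure Prof (a b T : ℝ) (F : ℝ × ℝ → ℝ) (v vx vy vxx vxy vyy : ℝ → ℝ → ℝ → ℝ) : Prop where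
  cont : ContinuousOn (fun q : ℝ × ℝ × ℝ => v q.1 q.2.1 q.2.2) (Ioc 0 T ×ˢ Icc 0 1 ×ˢ Icc 0 1)
  cxx : ∀ t ∈ Ioc 0 T, ContinuousOn (fun p : ℝ × ℝ => vxx t p.1 p.2) sq
  cxy : ∀ t ∈ Ioc 0 T, ContinuousOn (fun p : ℝ × ℝ => vxy t p.1 p.2) sq
  cyy : ∀ t ∈ Ioc 0 T, ContinuousOn (fun p : ℝ × ℝ => vyy t p.1 p.2) sq
  d1 : ∀ t ∈ Ioc 0 T, ∀ p ∈ sq, HasFDerivAt (fun p : ℝ × ℝ => v t p.1 p.2)
    (vx t p.1 p.2 • ContinuousLinearMap.fst ℝ ℝ ℝ +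
      vy t p.1 p.2 • ContinuousLinearMap.snd ℝ ℝ ℝ) p
  dx : ∀ t ∈ Ioc 0 T, ∀ p ∈ sq, HasFDerivAt (fun p : ℝ × ℝ => vx t p.1 p.2)
    (vxx t p.1 p.2 • ContinuousLinearMap.fst ℝ ℝ ℝ +
      vxy t p.1 p.2 • ContinuousLinearMap.snd ℝ ℝ ℝ) p
  dy : ∀ t ∈ Ioc 0 T, ∀ p ∈ sq, HasFDerivAt (fun p : ℝ × ℝ => vy t p.1 p.2)
    (vxy t p.1 p.2 • ContinuousLinearMap.fst ℝ ℝ ℝ +
      vyy t p.1 p.2 • ContinuousLinearMap.snd ℝ ℝ ℝ) p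
  dt : ∀ t ∈ Ioc 0 T, ∀ p ∈ sq, HasDerivAt (fun s => v s p.1 p.2)
    (a * vxx t p.1 p.2 + b * vyy t p.1 p.2) t
  wall : ∀ t ∈ Ioc 0 T, ∀ z : ℝ, v t 0 z = 0 ∧ v t z 0 = 0 ∧ v t z 1 = 0
  init : Tendsto (fun t => ∫⁻ p in sq, ENNReal.ofReal ((v t p.1 p.2 - F p) ^ 2)) (𝓝[>] 0) (𝓝 0)
  fin : ∀ x y : ℝ, v T x y = 0
  ex : IntegrableOn (fun q : ℝ × ℝ × ℝ => vx q.1 q.2.1 q.2.2 ^ 2) (Ioo 0 T ×ˢ sq)
  ey : IntegrableOn (fun q : ℝ × ℝ × ℝ => vy q.1 q.2.1 q.2.2 ^ 2) (Ioo 0 T ×ˢ sq)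
  meas : AEMeasurable F (volume.restrict sq)

/-- JOB TRA. Parallel flows are trajectories: adapt NS/Shear.lean (`traj`), with two special
coordinates `x 0`, `x 1`, scaled by `l0`, `l1`; pressure zero. -/
def S_TRA : Prop := ∀ {d : ℕ} {Ω W : Set (Sp (d + 2))} {l0 l1 T : ℝ}, IsOpen Ω →
  Bornology.IsBounded Ω → 0 < l0 → 0 < l1 → 0 < T → (∀ x ∈ Ω, x 0 ∈ Ioo 0 l0 ∧ x 1 ∈ Ioo 0 l1) →
  (∀ x ∈ W, x 0 = 0 ∨ x 1 = 0 ∨ x 1 = l1) →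
  ∀ {F : Fin (d + 2) → ℝ × ℝ → ℝ} {v vx vy vxx vxy vyy : Fin (d + 2) → ℝ → ℝ → ℝ → ℝ},
  (∀ i, Prof (1 / l0 ^ 2) (1 / l1 ^ 2) T (F i) (v i) (vx i) (vy i) (vxx i) (vxy i) (vyy i)) →
  (∀ t x y, v 0 t x y = 0) → (∀ t x y, v 1 t x y = 0) →
    IsTrajectory Ω W T (fun x i => F i (x 0 / l0, x 1 / l1))
      (fun t x i => v i t (x 0 / l0) (x 1 / l1)) (fun _ _ => 0) ∧
    ∀ x ∈ closure Ω, ∀ i, v i T (x 0 / l0) (x 1 / l1) = 0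

/-- JOB SCA. Scaling of square integrable functions (`NS.scale_mem` in two variables). -/
def S_SCA : Prop := ∀ (l0 l1 : ℝ) (f : ℝ × ℝ → ℝ), 0 < l0 → 0 < l1 →
  MemLp f 2 (volume.restrict (Ioo 0 l0 ×ˢ Ioo 0 l1)) →
  MemLp (fun p : ℝ × ℝ => f (l0 * p.1, l1 * p.2)) 2 (volume.restrict sq)

end Pool.Agent.V5helper23.PF
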