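import Pool.Agent.V5helper23.PF.Final

/-! # PROJECT PF, second wave: pipes with two no-slip walls meeting at an angle `π / m` -/

set_option autoImplicit false
set_option linter.all false

open MeasureTheory Set Real Filter Topology
open scoped ENNReal

namespace Pool.Agent.V5helper23.PF

open Pool.Agent.Y308.BC Pool.Agent.V5helper93.NS

/-- the disc -/
def disc (R : ℝ) : Set (ℝ × ℝ) := {p | p.1 ^ 2 + p.2 ^ 2 < R ^ 2}

/-- a solution of the heat equation `v_t = v_xx + v_yy` in `D ⊆ ℝ × ℝ` with initial value `F` and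
final value `0` -/
structure HProf (D : Set (ℝ × ℝ)) (T : ℝ) (F : ℝ × ℝ → ℝ) (v vx vy vxx vxy vyy : ℝ → ℝ × ℝ → ℝ) :
    Prop where
  cont : ContinuousOn (fun q : ℝ × ℝ × ℝ => v q.1 q.2) (Ioc 0 T ×ˢ closure D)
  cxx : ∀ t ∈ Ioc 0 T, ContinuousOn (vxx t) D
  cxy : ∀ t ∈ Ioc 0 T, ContinuousOn (vxy t) D
  cyy : ∀ t ∈ Ioc 0 T, ContinuousOn (vyy t) D
  d1 : ∀ t ∈ Ioc 0 T, ∀ p ∈ D, HasFDerivAt (v t)
    (vx t p • ContinuousLinearMap.fst ℝ ℝ ℝ + vy t p • ContinuousLinearMap.snd ℝ ℝ ℝ) p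
  dx : ∀ t ∈ Ioc 0 T, ∀ p ∈ D, HasFDerivAt (vx t)
    (vxx t p • ContinuousLinearMap.fst ℝ ℝ ℝ + vxy t p • ContinuousLinearMap.snd ℝ ℝ ℝ) p
  dy : ∀ t ∈ Ioc 0 T, ∀ p ∈ D, HasFDerivAt (vy t)
    (vxy t p • ContinuousLinearMap.fst ℝ ℝ ℝ + vyy t p • ContinuousLinearMap.snd ℝ ℝ ℝ) p
  dt : ∀ t ∈ Ioc 0 T, ∀ p ∈ D, HasDerivAt (fun s => v s p) (vxx t p + vyy t p) t
  init : Tendsto (fun t => ∫⁻ p in D, ENNReal.ofReal ((v t p - F p) ^ 2)) (𝓝[>] 0) (𝓝 0)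
  fin : ∀ p ∈ closure D, v T p = 0
  ex : IntegrableOn (fun q : ℝ × ℝ × ℝ => vx q.1 q.2 ^ 2) (Ioo 0 T ×ˢ D)
  ey : IntegrableOn (fun q : ℝ × ℝ × ℝ => vy q.1 q.2 ^ 2) (Ioo 0 T ×ˢ D)
  meas : AEMeasurable F (volume.restrict D)

def HP (D : Set (ℝ × ℝ)) (T : ℝ) (F : ℝ × ℝ → ℝ) (v : ℝ → ℝ × ℝ → ℝ) : Prop :=
  ∃ vx vy vxx vxy vyy : ℝ → ℝ × ℝ → ℝ, HProf D T F v vx vy vxx vxy vyy

/-- JOB DSC. From the unit square to the disc: `v t p = V t ((p.1 + R) / (2 R)) ((p.2 + R) / (2 R))`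
with the profile `V` of the lemma `prof` (Main.lean; its hypotheses are the theorems used in
Final.lean; `a = b = 1 / (2 R)²`) for `G p = F (2 R p.1 - R, 2 R p.2 - R)`, `F` cut off outside of the
disc. The integrals over the disc are at most `(2 R)²` times those over `sq` (compare `push` in
TRA.lean). -/
def S_DSC : Prop := ∀ (R T : ℝ) (F : ℝ × ℝ → ℝ), 0 < R → 0 < T →
  MemLp F 2 (volume.restrict (disc R)) → ∃ v, HP (disc R) T F v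

/-- JOB CMP. Composition with an orthogonal map `L` (chain rule; `L` preserves the disc, its closure and
the measure; the Laplacian is invariant: `∂xx (v ∘ L) = α² vxx + 2 α γ vxy + γ² vyy` and so on). -/
def S_CMP : Prop := ∀ (R T α β γ δ : ℝ) (F : ℝ × ℝ → ℝ) (v : ℝ → ℝ × ℝ → ℝ), 0 < R → 0 < T →
  α ^ 2 + β ^ 2 = 1 → γ ^ 2 + δ ^ 2 = 1 → α * γ + β * δ = 0 →
  α ^ 2 + γ ^ 2 = 1 → β ^ 2 + δ ^ 2 = 1 → α * β + γ * δ = 0 →
  HP (disc R) T F v →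
  HP (disc R) T (fun p => F (α * p.1 + β * p.2, γ * p.1 + δ * p.2))
    (fun t p => v t (α * p.1 + β * p.2, γ * p.1 + δ * p.2))

/-- JOB LIN. Linearity (`(a + κ b)² ≤ 2 a² + 2 κ² b²` for the integrals). -/
def S_LIN : Prop := ∀ (D : Set (ℝ × ℝ)) (T κ : ℝ) (F G : ℝ × ℝ → ℝ) (v w : ℝ → ℝ × ℝ → ℝ),
  IsOpen D → 0 < T → HP D T F v → HP D T G w →
  HP D T (fun p => F p + κ * G p) (fun t p => v t p + κ * w t p)

/-- JOB TR2. Parallel flows over `D` are trajectories: `t_TRA` (TRA.lean) with `l0 = l1 = 1` and `D` in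
place of `sq` (`push` for `D`: the image of the volume on `Ω` under `x ↦ (x 0, x 1)` is at most
`C • volume.restrict D`). -/
def S_TR2 : Prop := ∀ {d : ℕ} {Ω W : Set (Sp (d + 2))} {D : Set (ℝ × ℝ)} {T : ℝ}, IsOpen Ω →
  Bornology.IsBounded Ω → IsOpen D → 0 < T → (∀ x ∈ Ω, (x 0, x 1) ∈ D) →
  ∀ {F : Fin (d + 2) → ℝ × ℝ → ℝ} {v : Fin (d + 2) → ℝ → ℝ × ℝ → ℝ},
  (∀ i, HP D T (F i) (v i)) →
  (∀ x ∈ W, ∀ i, ∀ t ∈ Ioc 0 T, v i t (x 0, x 1) = 0) →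
  (∀ t p, v 0 t p = 0) → (∀ t p, v 1 t p = 0) →
    IsTrajectory Ω W T (fun x i => F i (x 0, x 1)) (fun t x i => v i t (x 0, x 1))
      (fun _ _ => 0) ∧ ∀ x ∈ closure Ω, ∀ i, v i T (x 0, x 1) = 0

/-- rotation by the angle `2 π j / m` -/
noncomputable def rot (m j : ℕ) (p : ℝ × ℝ) : ℝ × ℝ :=
  (cos (2 * π * j / m) * p.1 + -sin (2 * π * j / m) * p.2,
    sin (2 * π * j / m) * p.1 + cos (2 * π * j / m) * p.2)

/-- rotation after the reflection `(x, y) ↦ (x, -y)` -/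
noncomputable def ref (m j : ℕ) (p : ℝ × ℝ) : ℝ × ℝ :=
  (cos (2 * π * j / m) * p.1 + sin (2 * π * j / m) * p.2,
    sin (2 * π * j / m) * p.1 + -cos (2 * π * j / m) * p.2)

/-- the alternating sum over the dihedral group -/
noncomputable def anti (m : ℕ) (f : ℝ × ℝ → ℝ) (p : ℝ × ℝ) : ℝ :=
  ∑ j ∈ Finset.range m, (f (rot m j p) - f (ref m j p))

/-- the sector `0 < angle < π / m` -/
def sector (m : ℕ) : Set (ℝ × ℝ) := {p | 0 < p.2 ∧ p.2 * cos (π / m) < p.1 * sin (π / m)}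

/-- JOB GEO. (a) (b) the alternating sum vanishes on both sides of the sector: on `p.2 = 0`
`rot = ref`; on the other side `ref m (j+1) p = rot m j p` and a cyclic shift (`rot m m p = rot m 0 p`).
(c) the sector is a fundamental domain: `p = (r cos θ, r sin θ)`, `0 < θ < π / m`; the point with angle
`φ ∈ [π / m, 2 π]` is not in the sector (`sin φ > 0` gives `φ < π`, then `sin (π / m - φ) ≤ 0`); the
angles are `θ + 2 π j / m` (`1 ≤ j < m`), `2 π j / m - θ` (`1 ≤ j < m`) and `2 π - θ`. -/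
def S_GEO : Prop := ∀ m : ℕ, 1 ≤ m → ∀ f : ℝ × ℝ → ℝ,
  (∀ p : ℝ × ℝ, p.2 = 0 → anti m f p = 0) ∧
  (∀ p : ℝ × ℝ, p.2 * cos (π / m) = p.1 * sin (π / m) → anti m f p = 0) ∧
  ((∀ p, p ∉ sector m → f p = 0) → ∀ p ∈ sector m, anti m f p = f p)

end Pool.Agent.V5helper23.PF
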