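import Pool.Agent.V5helper23.PF.Stm2

set_option autoImplicit false
set_option linter.all false

open MeasureTheory Set Filter Topology
open scoped ENNReal

namespace Pool.Agent.V5helper23.PF

open Pool.Agent.V5helper93.NS

/-- the projection to the cross section -/
noncomputable def Pc (d : ℕ) : Sp (d + 2) →L[ℝ] ℝ × ℝ :=
  (ContinuousLinearMap.proj (R := ℝ) (φ := fun _ : Fin (d + 2) => ℝ) 0).prod
    (ContinuousLinearMap.proj (R := ℝ) (φ := fun _ : Fin (d + 2) => ℝ) 1)

lemma Pc_apply {d : ℕ} (x : Sp (d + 2)) : Pc d x = (x 0, x 1) := rfl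

lemma pd_Pc {d : ℕ} {g : ℝ × ℝ → ℝ} {α β : ℝ} {x : Sp (d + 2)}
    (h : HasFDerivAt g (α • ContinuousLinearMap.fst ℝ ℝ ℝ + β • ContinuousLinearMap.snd ℝ ℝ ℝ)
      (x 0, x 1)) (j : Fin (d + 2)) :
    pd j (fun y => g (y 0, y 1)) x = if j = 0 then α else if j = 1 then β else 0 := by
  have h' : HasFDerivAt g (α • ContinuousLinearMap.fst ℝ ℝ ℝ + β • ContinuousLinearMap.snd ℝ ℝ ℝ)
      (x 0 / 1, x 1 / 1) := by simpa using h
  have h1 := pd_Lc (d := d) (l0 := 1) (l1 := 1) h' j
  simpa using h1

lemma push2 {d : ℕ} {Ω : Set (Sp (d + 2))} {D : Set (ℝ × ℝ)} (hΩo : IsOpen Ω)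
    (hΩb : Bornology.IsBounded Ω) (hD : IsOpen D) (hΩ : ∀ x ∈ Ω, (x 0, x 1) ∈ D) :
    ∃ C : ℝ≥0∞, C ≠ ⊤ ∧ Measure.map (Pc d) (volume.restrict Ω) ≤ C • volume.restrict D := by
  obtain ⟨R, hR⟩ := hΩb.exists_norm_le
  set K : Set (Sp d) := univ.pi fun _ => Icc (-R) R with hK
  have hKf : volume K ≠ ⊤ := (isCompact_univ_pi fun _ => isCompact_Icc).measure_lt_top.ne
  refine ⟨volume K, hKf, ?_⟩
  rw [Measure.le_iff]
  intro A hA
  have hm : Measurable (Pc d) := (Pc d).continuous.measurable
  have hAs : MeasurableSet (A ∩ D) := hA.inter hD.measurableSet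
  rw [Measure.map_apply hm hA, Measure.restrict_apply (hm hA)]
  have hsub : (Pc d) ⁻¹' A ∩ Ω ⊆ psi d ⁻¹' ((A ∩ D) ×ˢ K) := by
    rintro x ⟨hx1, hx2⟩
    refine ⟨⟨hx1, hΩ x hx2⟩, ?_⟩
    intro i _
    exact abs_le.1 ((norm_le_pi_norm x i.succ.succ).trans (hR x hx2))
  refine (measure_mono hsub).trans ?_
  rw [(psi_mp d).measure_preimage (hAs.prod
    (MeasurableSet.univ_pi fun _ => measurableSet_Icc)).nullMeasurableSet, Measure.volume_eq_prod,
    Measure.prod_prod]
  simp only [Measure.smul_apply, smul_eq_mul]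
  rw [Measure.restrict_apply hA]
  exact le_of_eq (by ring)

theorem t_TR2 : S_TR2 := by
  intro d Ω W D T hΩo hΩb hDo hT hin F v h' hW hv0 hv1
  have h01 : (0 : Fin (d + 2)) ≠ 1 := by
    intro h; exact absurd (congrArg Fin.val h) (by simp)
  choose vx vy vxx vxy vyy h using h'
  have hcl : ∀ x ∈ closure Ω, (x 0, x 1) ∈ closure D := by
    intro x hx
    have hc : IsClosed {x : Sp (d + 2) | (x 0, x 1) ∈ closure D} :=
      isClosed_closure.preimage (by fun_prop)
    have hsub : Ω ⊆ {x : Sp (d + 2) | (x 0, x 1) ∈ closure D} :=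
      fun y hy => subset_closure (hin y hy)
    exact closure_minimal hsub hc hx
  obtain ⟨C, hC, hpush⟩ := push2 hΩo hΩb hDo hin
  have hLm : Measurable (Pc d) := (Pc d).continuous.measurable
  have hpd : ∀ i j, ∀ t ∈ Ioc 0 T, ∀ x ∈ Ω,
      pd j (fun y : Sp (d + 2) => v i t (y 0, y 1)) x =
        if j = 0 then vx i t (x 0, x 1) else if j = 1 then vy i t (x 0, x 1) else 0 :=
    fun i j t ht x hx => pd_Pc ((h i).d1 t ht _ (hin x hx)) j
  refine ⟨⟨?_, ?_, ?_, ?_, ?_, ?_, ?_, ?_, ?_⟩, fun x hx i => (h i).fin _ (hcl x hx)⟩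
  · rw [continuousOn_pi]
    intro i
    exact (h i).cont.comp (f := fun q : ℝ × Sp (d + 2) => (q.1, q.2 0, q.2 1))
      (by fun_prop) fun q hq => ⟨hq.1, hcl _ hq.2⟩
  · intro t ht
    rw [contDiffOn_pi]
    intro i
    have c0 : ∀ {g : ℝ × ℝ → ℝ}, ContinuousOn g D → ContDiffOn ℝ 0 g D :=
      fun hg => contDiffOn_zero.2 hg
    have a1 := cd1 hDo ((h i).dx t ht) (c0 ((h i).cxx t ht)) (c0 ((h i).cxy t ht)) (by simp)
    have a2 := cd1 hDo ((h i).dy t ht) (c0 ((h i).cxy t ht)) (c0 ((h i).cyy t ht)) (by simp)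
    have a3 := cd1 hDo ((h i).d1 t ht) a1 a2 (by simp)
    have e : ((0 : WithTop ℕ∞) + 1 + 1) = 2 := by norm_num
    rw [e] at a3
    have hL : ContDiffOn ℝ 2 (Pc d) Ω := (Pc d).contDiff.contDiffOn
    exact a3.comp hL (fun x hx => hin x hx)
  · intro t ht x hx
    rw [differentiableAt_pi]
    exact fun i => ((h i).dt t ht _ (hin x hx)).differentiableAt
  · intro t ht
    exact differentiableOn_const _
  · intro t ht x hx i
    have e1 := ((h i).dt t ht _ (hin x hx)).deriv
    have e0 : pd i (fun _ : Sp (d + 2) => (0:ℝ)) x = 0 := by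
      unfold pd; simp
    have e2 : ∑ j, v j t (x 0, x 1) * pd j (fun y : Sp (d + 2) => v i t (y 0, y 1)) x = 0 := by
      refine Finset.sum_eq_zero fun j _ => ?_
      rw [hpd i j t ht x hx]
      by_cases hj : j = 0
      · rw [hj, hv0, zero_mul]
      · by_cases hj1 : j = 1
        · rw [hj1, hv1, zero_mul]
        · rw [if_neg hj, if_neg hj1, mul_zero]
    have e3 : ∑ j, pd j (pd j fun y : Sp (d + 2) => v i t (y 0, y 1)) x =
        vxx i t (x 0, x 1) + vyy i t (x 0, x 1) := by
      have hz : ∀ j : Fin (d + 2), pd j (pd j fun y : Sp (d + 2) => v i t (y 0, y 1)) x =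
          (if j = 0 then vxx i t (x 0, x 1) else 0) + (if j = 1 then vyy i t (x 0, x 1) else 0) := by
        intro j
        by_cases hj : j = 0
        · have e4 : (pd j fun y : Sp (d + 2) => v i t (y 0, y 1)) =ᶠ[𝓝 x]
              fun y => vx i t (y 0, y 1) := by
            filter_upwards [hΩo.mem_nhds hx] with y hy
            rw [hpd i j t ht y hy, if_pos hj]
          have e5 := pd_Pc ((h i).dx t ht _ (hin x hx)) j
          rw [if_pos hj] at e5
          rw [if_pos hj, if_neg (by rw [hj]; exact h01), add_zero, ← e5]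
          unfold pd at e4 ⊢
          rw [e4.fderiv_eq]
        · by_cases hj1 : j = 1
          · have e4 : (pd j fun y : Sp (d + 2) => v i t (y 0, y 1)) =ᶠ[𝓝 x]
                fun y => vy i t (y 0, y 1) := by
              filter_upwards [hΩo.mem_nhds hx] with y hy
              rw [hpd i j t ht y hy, if_neg hj, if_pos hj1]
            have e5 := pd_Pc ((h i).dy t ht _ (hin x hx)) j
            rw [if_neg hj, if_pos hj1] at e5
            rw [if_neg hj, if_pos hj1, zero_add, ← e5]
            unfold pd at e4 ⊢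
            rw [e4.fderiv_eq]
          · have e4 : (pd j fun y : Sp (d + 2) => v i t (y 0, y 1)) =ᶠ[𝓝 x] fun _ => 0 := by
              filter_upwards [hΩo.mem_nhds hx] with y hy
              rw [hpd i j t ht y hy, if_neg hj, if_neg hj1]
            rw [if_neg hj, if_neg hj1, add_zero]
            unfold pd at e4 ⊢
            rw [e4.fderiv_eq]
            simp
      rw [Finset.sum_congr rfl fun j _ => hz j, Finset.sum_add_distrib]
      simp
    show deriv (fun s => v i s (x 0, x 1)) t +
      ∑ j, v j t (x 0, x 1) * pd j (fun y : Sp (d + 2) => v i t (y 0, y 1)) x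
      - ∑ j, pd j (pd j fun y : Sp (d + 2) => v i t (y 0, y 1)) x +
        pd i (fun _ : Sp (d + 2) => (0:ℝ)) x = 0
    rw [e2, e3, e0, e1]
    ring
  · intro t ht x hx
    refine Finset.sum_eq_zero fun j _ => ?_
    rw [hpd j j t ht x hx]
    by_cases hj : j = 0
    · subst hj
      rw [if_pos rfl]
      have e1 := (h 0).d1 t ht _ (hin x hx)
      have e2 : HasFDerivAt (v 0 t) (0 : ℝ × ℝ →L[ℝ] ℝ) (x 0, x 1) := by
        have : v 0 t = fun _ => 0 := by funext p; exact hv0 t _
        rw [this]; exact hasFDerivAt_const _ _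
      have e3 := congrArg (fun L : ℝ × ℝ →L[ℝ] ℝ => L (1, 0)) (e1.unique e2)
      simpa using e3
    · rw [if_neg hj]
      by_cases hj1 : j = 1
      · subst hj1
        rw [if_pos rfl]
        have e1 := (h 1).d1 t ht _ (hin x hx)
        have e2 : HasFDerivAt (v 1 t) (0 : ℝ × ℝ →L[ℝ] ℝ) (x 0, x 1) := by
          have : v 1 t = fun _ => 0 := by funext p; exact hv1 t _
          rw [this]; exact hasFDerivAt_const _ _
        have e3 := congrArg (fun L : ℝ × ℝ →L[ℝ] ℝ => L (0, 1)) (e1.unique e2)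
        simpa using e3
      · rw [if_neg hj1]
  · intro t ht x hx
    funext i
    exact hW x hx i t ht
  · have hac : Measure.map (Pc d) (volume.restrict Ω) ≪ volume.restrict D :=
      (Measure.absolutelyContinuous_of_le hpush).trans Measure.smul_absolutelyContinuous
    have h1 : ∀ t ∈ Ioc 0 T, ∫⁻ x in Ω, ENNReal.ofReal (∑ i, (v i t (x 0, x 1) -
        F i (x 0, x 1)) ^ 2) ≤
        ∑ i, C * ∫⁻ p in D, ENNReal.ofReal ((v i t p - F i p) ^ 2) := by
      intro t ht
      have hae : ∀ i, AEMeasurable (fun p : ℝ × ℝ => ENNReal.ofReal ((v i t p - F i p) ^ 2))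
          (volume.restrict D) := by
        intro i
        have a1 : ContinuousOn (v i t) D := by
          refine (h i).cont.comp (f := fun p : ℝ × ℝ => (t, p.1, p.2)) (by fun_prop)
            fun p hp => ⟨ht, subset_closure hp⟩
        have a2 := a1.aemeasurable (μ := volume) hDo.measurableSet
        exact ((a2.sub (h i).meas).pow_const 2).ennreal_ofReal
      calc ∫⁻ x in Ω, ENNReal.ofReal (∑ i, (v i t (x 0, x 1) - F i (x 0, x 1)) ^ 2)
          = ∫⁻ x in Ω, ∑ i, (fun p : ℝ × ℝ => ENNReal.ofReal ((v i t p - F i p) ^ 2))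
              (Pc d x) := by
            refine lintegral_congr fun x => ?_
            rw [ENNReal.ofReal_sum_of_nonneg fun i _ => sq_nonneg _]
            simp only [Pc_apply]
        _ = ∑ i, ∫⁻ x in Ω, (fun p : ℝ × ℝ => ENNReal.ofReal ((v i t p - F i p) ^ 2))
              (Pc d x) := by
            refine lintegral_finset_sum' _ fun i _ => ?_
            exact ((hae i).mono_ac hac).comp_aemeasurable hLm.aemeasurable
        _ = ∑ i, ∫⁻ p, ENNReal.ofReal ((v i t p - F i p) ^ 2)
              ∂(Measure.map (Pc d) (volume.restrict Ω)) := by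
            refine Finset.sum_congr rfl fun i _ => ?_
            rw [lintegral_map' ((hae i).mono_ac hac) hLm.aemeasurable]
        _ ≤ ∑ i, C * ∫⁻ p in D, ENNReal.ofReal ((v i t p - F i p) ^ 2) := by
            refine Finset.sum_le_sum fun i _ => ?_
            refine (lintegral_mono' hpush le_rfl).trans ?_
            rw [lintegral_smul_measure, smul_eq_mul]
    have h3 : Tendsto (fun t => ∑ i, C * ∫⁻ p in D, ENNReal.ofReal ((v i t p - F i p) ^ 2))
        (𝓝[>] 0) (𝓝 (∑ i : Fin (d + 2), C * 0)) :=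
      tendsto_finsetSum _ fun i _ => ENNReal.Tendsto.const_mul (h i).init (Or.inr hC)
    simp only [mul_zero, Finset.sum_const_zero] at h3
    refine tendsto_of_tendsto_of_tendsto_of_le_of_le' tendsto_const_nhds h3
      (Eventually.of_forall fun _ => bot_le) ?_
    filter_upwards [Ioc_mem_nhdsGT hT] with t ht
    exact h1 t ht
  · -- energy
    have key : ∀ G : ℝ × ℝ × ℝ → ℝ, IntegrableOn G (Ioo 0 T ×ˢ D) →
        IntegrableOn (fun q : ℝ × Sp (d + 2) => G (q.1, q.2 0, q.2 1)) (Ioo 0 T ×ˢ Ω) := by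
      intro G hG
      have hG' : Integrable G ((volume.restrict (Ioo 0 T)).prod (volume.restrict D)) := by
        unfold IntegrableOn at hG
        rwa [Measure.volume_eq_prod, ← Measure.prod_restrict] at hG
      have hG2 : Integrable G ((volume.restrict (Ioo 0 T)).prod
          (C • (volume.restrict D : Measure (ℝ × ℝ)))) := by
        rw [Measure.prod_smul_right]
        exact hG'.smul_measure hC
      have hG3 : Integrable G ((volume.restrict (Ioo 0 T)).prod
          (Measure.map (Pc d) (volume.restrict Ω))) :=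
        hG2.mono_measure (Measure.prod_mono le_rfl hpush)
      have e : (volume.restrict (Ioo 0 T)).prod (Measure.map (Pc d) (volume.restrict Ω)) =
          Measure.map (Prod.map id (Pc d)) ((volume.restrict (Ioo 0 T)).prod
            (volume.restrict Ω)) := by
        rw [← Measure.map_prod_map _ _ measurable_id hLm, Measure.map_id]
      rw [e] at hG3
      have hG4 := hG3.comp_measurable (measurable_id.prodMap hLm)
      unfold IntegrableOn
      rw [Measure.volume_eq_prod, ← Measure.prod_restrict]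
      exact hG4
    intro i j
    by_cases hj : j = 0
    · refine IntegrableOn.congr_fun (key _ (h i).ex) ?_ (measurableSet_Ioo.prod hΩo.measurableSet)
      intro q hq
      show vx i q.1 (q.2 0, q.2 1) ^ 2 =
        pd j (fun y : Sp (d + 2) => v i q.1 (y 0, y 1)) q.2 ^ 2
      rw [hpd i j q.1 (Ioo_subset_Ioc_self hq.1) q.2 hq.2, if_pos hj]
    · by_cases hj1 : j = 1
      · refine IntegrableOn.congr_fun (key _ (h i).ey) ?_ (measurableSet_Ioo.prod hΩo.measurableSet)
        intro q hq
        show vy i q.1 (q.2 0, q.2 1) ^ 2 =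
          pd j (fun y : Sp (d + 2) => v i q.1 (y 0, y 1)) q.2 ^ 2
        rw [hpd i j q.1 (Ioo_subset_Ioc_self hq.1) q.2 hq.2, if_neg hj, if_pos hj1]
      · have h1 : IntegrableOn (fun _ : ℝ × Sp (d + 2) => (0:ℝ)) (Ioo 0 T ×ˢ Ω) := by
          simp [IntegrableOn]
        refine h1.congr_fun ?_ (measurableSet_Ioo.prod hΩo.measurableSet)
        intro q hq
        show 0 = pd j (fun y : Sp (d + 2) => v i q.1 (y 0, y 1)) q.2 ^ 2
        rw [hpd i j q.1 (Ioo_subset_Ioc_self hq.1) q.2 hq.2, if_neg hj, if_neg hj1]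
        norm_num

end Pool.Agent.V5helper23.PF
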