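import Pool.Agent.V5helper23.PF.Stm

set_option autoImplicit false
set_option linter.all false

open MeasureTheory Set Filter Topology
open scoped ENNReal

namespace Pool.Agent.V5helper23.PF

open Pool.Agent.V5helper93.NS

lemma cd1 {g gx gy : ℝ × ℝ → ℝ} {s : Set (ℝ × ℝ)} (hs : IsOpen s)
    (h1 : ∀ p ∈ s, HasFDerivAt g (gx p • ContinuousLinearMap.fst ℝ ℝ ℝ +
      gy p • ContinuousLinearMap.snd ℝ ℝ ℝ) p) {n : WithTop ℕ∞}
    (hx : ContDiffOn ℝ n gx s) (hy : ContDiffOn ℝ n gy s) (hn : n ≠ ⊤) : ContDiffOn ℝ (n + 1) g s := by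
  rw [contDiffOn_succ_iff_fderiv_of_isOpen hs]
  refine ⟨fun p hp => (h1 p hp).differentiableAt.differentiableWithinAt, ?_, ?_⟩
  · intro h
    exact absurd h (by simpa using hn)
  · have e : ContDiffOn ℝ n (fun p => gx p • ContinuousLinearMap.fst ℝ ℝ ℝ +
        gy p • ContinuousLinearMap.snd ℝ ℝ ℝ) s :=
      (hx.smul contDiffOn_const).add (hy.smul contDiffOn_const)
    exact e.congr fun p hp => (h1 p hp).fderiv

lemma sq_open : IsOpen sq := isOpen_Ioo.prod isOpen_Ioo

/-- the projection to the cross section, scaled -/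
noncomputable def Lc (d : ℕ) (l0 l1 : ℝ) : Sp (d + 2) →L[ℝ] ℝ × ℝ :=
  ((l0⁻¹ : ℝ) • ContinuousLinearMap.proj (R := ℝ) (φ := fun _ : Fin (d + 2) => ℝ) 0).prod
    ((l1⁻¹ : ℝ) • ContinuousLinearMap.proj (R := ℝ) (φ := fun _ : Fin (d + 2) => ℝ) 1)

lemma Lc_apply {d : ℕ} (l0 l1 : ℝ) (x : Sp (d + 2)) : Lc d l0 l1 x = (x 0 / l0, x 1 / l1) := by
  unfold Lc
  simp [ContinuousLinearMap.prod_apply, div_eq_inv_mul]

lemma pd_Lc {d : ℕ} {l0 l1 : ℝ} {g : ℝ × ℝ → ℝ} {α β : ℝ} {x : Sp (d + 2)}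
    (h : HasFDerivAt g (α • ContinuousLinearMap.fst ℝ ℝ ℝ + β • ContinuousLinearMap.snd ℝ ℝ ℝ)
      (x 0 / l0, x 1 / l1)) (j : Fin (d + 2)) :
    pd j (fun y => g (y 0 / l0, y 1 / l1)) x =
      if j = 0 then α / l0 else if j = 1 then β / l1 else 0 := by
  have e : (fun y : Sp (d + 2) => g (y 0 / l0, y 1 / l1)) = g ∘ (Lc d l0 l1) := by
    funext y; simp [Lc_apply]
  have h' : HasFDerivAt g (α • ContinuousLinearMap.fst ℝ ℝ ℝ + β • ContinuousLinearMap.snd ℝ ℝ ℝ)
      (Lc d l0 l1 x) := by rw [Lc_apply]; exact h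
  have h1 := h'.comp x (Lc d l0 l1).hasFDerivAt
  unfold pd
  rw [e, h1.fderiv]
  have h01 : (0 : Fin (d + 2)) ≠ 1 := by
    intro h; exact absurd (congrArg Fin.val h) (by simp)
  by_cases h0 : j = 0
  · subst h0
    simp [Lc, h01.symm, div_eq_mul_inv]
  · by_cases h1 : j = 1
    · subst h1
      simp [Lc, h0, Ne.symm h0, div_eq_mul_inv]
    · simp [Lc, h0, h1, Ne.symm h0, Ne.symm h1]

/-- the coordinates -/
noncomputable def psi (d : ℕ) (x : Sp (d + 2)) : (ℝ × ℝ) × Sp d :=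
  ((x 0, x 1), fun i => x i.succ.succ)

lemma psi_mp (d : ℕ) : MeasurePreserving (psi d) := by
  have h1 := volume_preserving_piFinSuccAbove (fun _ : Fin (d + 2) => ℝ) 0
  have h2 := (MeasurePreserving.id (volume : Measure ℝ)).prod
    (volume_preserving_piFinSuccAbove (fun _ : Fin (d + 1) => ℝ) 0)
  have h3 := (volume_preserving_prodAssoc (α₁ := ℝ) (β₁ := ℝ) (γ₁ := Fin d → ℝ)).symm
  have h4 := (h3.comp h2).comp h1
  convert h4 using 1
  funext x
  rfl

lemma push {d : ℕ} {Ω : Set (Sp (d + 2))} {l0 l1 : ℝ} (hΩo : IsOpen Ω)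
    (hΩb : Bornology.IsBounded Ω) (h0 : 0 < l0) (h1 : 0 < l1)
    (hΩ : ∀ x ∈ Ω, x 0 ∈ Ioo 0 l0 ∧ x 1 ∈ Ioo 0 l1) :
    ∃ C : ℝ≥0∞, C ≠ ⊤ ∧ Measure.map (Lc d l0 l1) (volume.restrict Ω) ≤ C • volume.restrict sq := by
  obtain ⟨R, hR⟩ := hΩb.exists_norm_le
  set K : Set (Sp d) := univ.pi fun _ => Icc (-R) R with hK
  have hKf : volume K ≠ ⊤ := (isCompact_univ_pi fun _ => isCompact_Icc).measure_lt_top.ne
  have hmap : Measure.map (Prod.map (fun a : ℝ => a * l0⁻¹) (fun a : ℝ => a * l1⁻¹))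
      (volume : Measure (ℝ × ℝ)) = (ENNReal.ofReal |(l0⁻¹)⁻¹| * ENNReal.ofReal |(l1⁻¹)⁻¹|) •
        (volume : Measure (ℝ × ℝ)) := by
    rw [Measure.volume_eq_prod, ← Measure.map_prod_map _ _ (by fun_prop) (by fun_prop),
      Real.map_volume_mul_right (by positivity), Real.map_volume_mul_right (by positivity)]
    rw [Measure.prod_smul_left, Measure.prod_smul_right, smul_smul]
  refine ⟨ENNReal.ofReal |(l0⁻¹)⁻¹| * ENNReal.ofReal |(l1⁻¹)⁻¹| * volume K,
    ENNReal.mul_ne_top (ENNReal.mul_ne_top ENNReal.ofReal_ne_top ENNReal.ofReal_ne_top) hKf, ?_⟩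
  rw [Measure.le_iff]
  intro A hA
  have hm : Measurable (Lc d l0 l1) := (Lc d l0 l1).continuous.measurable
  have hm2 : Measurable (Prod.map (fun a : ℝ => a * l0⁻¹) (fun a : ℝ => a * l1⁻¹)) := by fun_prop
  have hAs : MeasurableSet (A ∩ sq) := hA.inter sq_open.measurableSet
  rw [Measure.map_apply hm hA, Measure.restrict_apply (hm hA)]
  have hsub : (Lc d l0 l1) ⁻¹' A ∩ Ω ⊆ psi d ⁻¹'
      (((Prod.map (fun a : ℝ => a * l0⁻¹) (fun a : ℝ => a * l1⁻¹)) ⁻¹' (A ∩ sq)) ×ˢ K) := by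
    rintro x ⟨hx1, hx2⟩
    have hx1' : (x 0 / l0, x 1 / l1) ∈ A := by
      have := hx1
      rwa [mem_preimage, Lc_apply] at this
    obtain ⟨a1, a2⟩ := hΩ x hx2
    refine ⟨⟨?_, ?_⟩, ?_⟩
    · show (x 0 * l0⁻¹, x 1 * l1⁻¹) ∈ A
      simpa [div_eq_mul_inv] using hx1'
    · show (x 0 * l0⁻¹, x 1 * l1⁻¹) ∈ sq
      refine ⟨⟨?_, ?_⟩, ⟨?_, ?_⟩⟩
      · exact mul_pos a1.1 (by positivity)
      · show x 0 * l0⁻¹ < 1
        rw [← div_eq_mul_inv, div_lt_one h0]; exact a1.2
      · exact mul_pos a2.1 (by positivity)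
      · show x 1 * l1⁻¹ < 1
        rw [← div_eq_mul_inv, div_lt_one h1]; exact a2.2
    · intro i _
      exact abs_le.1 ((norm_le_pi_norm x i.succ.succ).trans (hR x hx2))
  refine (measure_mono hsub).trans ?_
  rw [(psi_mp d).measure_preimage ((hm2 hAs).prod
    (MeasurableSet.univ_pi fun _ => measurableSet_Icc)).nullMeasurableSet, Measure.volume_eq_prod,
    Measure.prod_prod, ← Measure.map_apply hm2 hAs, hmap]
  simp only [Measure.smul_apply, smul_eq_mul]
  rw [Measure.restrict_apply hA]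
  exact le_of_eq (by ring)

theorem t_TRA : S_TRA := by
  intro d Ω W l0 l1 T hΩo hΩb h0 h1 hT hΩ hW F v vx vy vxx vxy vyy h hv0 hv1
  have h01 : (0 : Fin (d + 2)) ≠ 1 := by
    intro h; exact absurd (congrArg Fin.val h) (by simp)
  have hin : ∀ x ∈ Ω, (x 0 / l0, x 1 / l1) ∈ sq := by
    intro x hx
    obtain ⟨a1, a2⟩ := hΩ x hx
    exact ⟨⟨div_pos a1.1 h0, (div_lt_one h0).2 a1.2⟩, ⟨div_pos a2.1 h1, (div_lt_one h1).2 a2.2⟩⟩
  have hcl : ∀ x ∈ closure Ω, (x 0 / l0, x 1 / l1) ∈ Icc (0:ℝ) 1 ×ˢ Icc (0:ℝ) 1 := by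
    intro x hx
    have hc : IsClosed {x : Sp (d + 2) | (x 0 / l0, x 1 / l1) ∈ Icc (0:ℝ) 1 ×ˢ Icc (0:ℝ) 1} :=
      (isClosed_Icc.prod isClosed_Icc).preimage (by fun_prop)
    have hsub : Ω ⊆ {x : Sp (d + 2) | (x 0 / l0, x 1 / l1) ∈ Icc (0:ℝ) 1 ×ˢ Icc (0:ℝ) 1} :=
      fun y hy => ⟨Ioo_subset_Icc_self (hin y hy).1, Ioo_subset_Icc_self (hin y hy).2⟩
    exact closure_minimal hsub hc hx
  obtain ⟨C, hC, hpush⟩ := push hΩo hΩb h0 h1 hΩ
  have hLm : Measurable (Lc d l0 l1) := (Lc d l0 l1).continuous.measurable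
  have hpd : ∀ i j, ∀ t ∈ Ioc 0 T, ∀ x ∈ Ω,
      pd j (fun y : Sp (d + 2) => v i t (y 0 / l0) (y 1 / l1)) x =
        if j = 0 then vx i t (x 0 / l0) (x 1 / l1) / l0 else
          if j = 1 then vy i t (x 0 / l0) (x 1 / l1) / l1 else 0 :=
    fun i j t ht x hx => pd_Lc (g := fun p => v i t p.1 p.2) ((h i).d1 t ht _ (hin x hx)) j
  refine ⟨⟨?_, ?_, ?_, ?_, ?_, ?_, ?_, ?_, ?_⟩, fun x hx i => (h i).fin _ _⟩
  · rw [continuousOn_pi]
    intro i
    exact (h i).cont.comp (f := fun q : ℝ × Sp (d + 2) => (q.1, q.2 0 / l0, q.2 1 / l1))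
      (by fun_prop) fun q hq => ⟨hq.1, hcl _ hq.2⟩
  · intro t ht
    rw [contDiffOn_pi]
    intro i
    have c0 : ∀ {g : ℝ × ℝ → ℝ}, ContinuousOn g sq → ContDiffOn ℝ 0 g sq :=
      fun hg => contDiffOn_zero.2 hg
    have a1 := cd1 sq_open ((h i).dx t ht) (c0 ((h i).cxx t ht)) (c0 ((h i).cxy t ht)) (by simp)
    have a2 := cd1 sq_open ((h i).dy t ht) (c0 ((h i).cxy t ht)) (c0 ((h i).cyy t ht)) (by simp)
    have a3 := cd1 sq_open ((h i).d1 t ht) a1 a2 (by simp)
    have e : ((0 : WithTop ℕ∞) + 1 + 1) = 2 := by norm_num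
    rw [e] at a3
    have hL : ContDiffOn ℝ 2 (Lc d l0 l1) Ω := (Lc d l0 l1).contDiff.contDiffOn
    have a4 := a3.comp hL (fun x hx => by
      show Lc d l0 l1 x ∈ sq
      rw [Lc_apply]; exact hin x hx)
    refine a4.congr fun x hx => ?_
    simp [Lc_apply]
  · intro t ht x hx
    rw [differentiableAt_pi]
    exact fun i => ((h i).dt t ht _ (hin x hx)).differentiableAt
  · intro t ht
    exact differentiableOn_const _
  · intro t ht x hx i
    have e1 := ((h i).dt t ht _ (hin x hx)).deriv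
    have e0 : pd i (fun _ : Sp (d + 2) => (0:ℝ)) x = 0 := by
      unfold pd; simp
    have e2 : ∑ j, v j t (x 0 / l0) (x 1 / l1) *
        pd j (fun y : Sp (d + 2) => v i t (y 0 / l0) (y 1 / l1)) x = 0 := by
      refine Finset.sum_eq_zero fun j _ => ?_
      rw [hpd i j t ht x hx]
      by_cases hj : j = 0
      · rw [hj, hv0, zero_mul]
      · by_cases hj1 : j = 1
        · rw [hj1, hv1, zero_mul]
        · rw [if_neg hj, if_neg hj1, mul_zero]
    have e3 : ∑ j, pd j (pd j fun y : Sp (d + 2) => v i t (y 0 / l0) (y 1 / l1)) x =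
        vxx i t (x 0 / l0) (x 1 / l1) / l0 / l0 + vyy i t (x 0 / l0) (x 1 / l1) / l1 / l1 := by
      have hz : ∀ j : Fin (d + 2), pd j (pd j fun y : Sp (d + 2) => v i t (y 0 / l0) (y 1 / l1)) x =
          (if j = 0 then vxx i t (x 0 / l0) (x 1 / l1) / l0 / l0 else 0) +
          (if j = 1 then vyy i t (x 0 / l0) (x 1 / l1) / l1 / l1 else 0) := by
        intro j
        by_cases hj : j = 0
        · have e4 : (pd j fun y : Sp (d + 2) => v i t (y 0 / l0) (y 1 / l1)) =ᶠ[𝓝 x]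
              fun y => (fun p : ℝ × ℝ => vx i t p.1 p.2 / l0) (y 0 / l0, y 1 / l1) := by
            filter_upwards [hΩo.mem_nhds hx] with y hy
            rw [hpd i j t ht y hy, if_pos hj]
          have e6 : HasFDerivAt (fun p : ℝ × ℝ => vx i t p.1 p.2 / l0)
              ((vxx i t (x 0 / l0) (x 1 / l1) / l0) • ContinuousLinearMap.fst ℝ ℝ ℝ +
              (vxy i t (x 0 / l0) (x 1 / l1) / l0) • ContinuousLinearMap.snd ℝ ℝ ℝ)
              (x 0 / l0, x 1 / l1) := by
            have := ((h i).dx t ht _ (hin x hx)).mul_const (l0⁻¹)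
            simp only [div_eq_mul_inv] at this ⊢
            refine this.congr_fderiv ?_
            ext <;> simp [mul_comm]
          have e5 := pd_Lc e6 j
          rw [if_pos hj] at e5
          rw [if_pos hj, if_neg (by rw [hj]; exact h01), add_zero, ← e5]
          unfold pd at e4 ⊢
          rw [e4.fderiv_eq]
        · by_cases hj1 : j = 1
          · have e4 : (pd j fun y : Sp (d + 2) => v i t (y 0 / l0) (y 1 / l1)) =ᶠ[𝓝 x]
                fun y => (fun p : ℝ × ℝ => vy i t p.1 p.2 / l1) (y 0 / l0, y 1 / l1) := by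
              filter_upwards [hΩo.mem_nhds hx] with y hy
              rw [hpd i j t ht y hy, if_neg hj, if_pos hj1]
            have e6 : HasFDerivAt (fun p : ℝ × ℝ => vy i t p.1 p.2 / l1)
                ((vxy i t (x 0 / l0) (x 1 / l1) / l1) • ContinuousLinearMap.fst ℝ ℝ ℝ +
                (vyy i t (x 0 / l0) (x 1 / l1) / l1) • ContinuousLinearMap.snd ℝ ℝ ℝ)
                (x 0 / l0, x 1 / l1) := by
              have := ((h i).dy t ht _ (hin x hx)).mul_const (l1⁻¹)
              simp only [div_eq_mul_inv] at this ⊢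
              refine this.congr_fderiv ?_
              ext <;> simp [mul_comm]
            have e5 := pd_Lc e6 j
            rw [if_neg hj, if_pos hj1] at e5
            rw [if_neg hj, if_pos hj1, zero_add, ← e5]
            unfold pd at e4 ⊢
            rw [e4.fderiv_eq]
          · have e4 : (pd j fun y : Sp (d + 2) => v i t (y 0 / l0) (y 1 / l1)) =ᶠ[𝓝 x]
                fun _ => 0 := by
              filter_upwards [hΩo.mem_nhds hx] with y hy
              rw [hpd i j t ht y hy, if_neg hj, if_neg hj1]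
            rw [if_neg hj, if_neg hj1, add_zero]
            unfold pd at e4 ⊢
            rw [e4.fderiv_eq]
            simp
      rw [Finset.sum_congr rfl fun j _ => hz j, Finset.sum_add_distrib]
      simp
    show deriv (fun s => v i s (x 0 / l0) (x 1 / l1)) t +
      ∑ j, v j t (x 0 / l0) (x 1 / l1) *
        pd j (fun y : Sp (d + 2) => v i t (y 0 / l0) (y 1 / l1)) x
      - ∑ j, pd j (pd j fun y : Sp (d + 2) => v i t (y 0 / l0) (y 1 / l1)) x +
        pd i (fun _ : Sp (d + 2) => (0:ℝ)) x = 0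
    rw [e2, e3, e0, e1]
    field_simp
    ring
  · intro t ht x hx
    refine Finset.sum_eq_zero fun j _ => ?_
    rw [hpd j j t ht x hx]
    by_cases hj : j = 0
    · subst hj
      rw [if_pos rfl]
      have e1 := (h 0).d1 t ht _ (hin x hx)
      have e2 : HasFDerivAt (fun p : ℝ × ℝ => v 0 t p.1 p.2) (0 : ℝ × ℝ →L[ℝ] ℝ)
          (x 0 / l0, x 1 / l1) := by
        have : (fun p : ℝ × ℝ => v 0 t p.1 p.2) = fun _ => 0 := by funext p; exact hv0 t _ _
        rw [this]; exact hasFDerivAt_const _ _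
      have e3 := congrArg (fun L : ℝ × ℝ →L[ℝ] ℝ => L (1, 0)) (e1.unique e2)
      simp at e3
      rw [e3, zero_div]
    · rw [if_neg hj]
      by_cases hj1 : j = 1
      · subst hj1
        rw [if_pos rfl]
        have e1 := (h 1).d1 t ht _ (hin x hx)
        have e2 : HasFDerivAt (fun p : ℝ × ℝ => v 1 t p.1 p.2) (0 : ℝ × ℝ →L[ℝ] ℝ)
            (x 0 / l0, x 1 / l1) := by
          have : (fun p : ℝ × ℝ => v 1 t p.1 p.2) = fun _ => 0 := by funext p; exact hv1 t _ _
          rw [this]; exact hasFDerivAt_const _ _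
        have e3 := congrArg (fun L : ℝ × ℝ →L[ℝ] ℝ => L (0, 1)) (e1.unique e2)
        simp at e3
        rw [e3, zero_div]
      · rw [if_neg hj1]
  · intro t ht x hx
    funext i
    obtain ⟨b1, b2, b3⟩ := (h i).wall t ht (x 0 / l0)
    rcases hW x hx with hx | hx | hx
    · show v i t (x 0 / l0) (x 1 / l1) = 0
      rw [hx, zero_div]; exact ((h i).wall t ht _).1
    · show v i t (x 0 / l0) (x 1 / l1) = 0
      rw [hx, zero_div]; exact b2
    · show v i t (x 0 / l0) (x 1 / l1) = 0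
      rw [hx, div_self h1.ne']; exact b3
  · have hac : Measure.map (Lc d l0 l1) (volume.restrict Ω) ≪ volume.restrict sq :=
      (Measure.absolutelyContinuous_of_le hpush).trans Measure.smul_absolutelyContinuous
    have h1 : ∀ t ∈ Ioc 0 T, ∫⁻ x in Ω, ENNReal.ofReal (∑ i, (v i t (x 0 / l0) (x 1 / l1) -
        F i (x 0 / l0, x 1 / l1)) ^ 2) ≤
        ∑ i, C * ∫⁻ p in sq, ENNReal.ofReal ((v i t p.1 p.2 - F i p) ^ 2) := by
      intro t ht
      have hae : ∀ i, AEMeasurable (fun p : ℝ × ℝ => ENNReal.ofReal ((v i t p.1 p.2 - F i p) ^ 2))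
          (volume.restrict sq) := by
        intro i
        have a1 : ContinuousOn (fun p : ℝ × ℝ => v i t p.1 p.2) sq := by
          refine (h i).cont.comp (f := fun p : ℝ × ℝ => (t, p.1, p.2)) (by fun_prop)
            fun p hp => ⟨ht, Ioo_subset_Icc_self hp.1, Ioo_subset_Icc_self hp.2⟩
        have a2 := a1.aemeasurable (μ := volume) sq_open.measurableSet
        exact ((a2.sub (h i).meas).pow_const 2).ennreal_ofReal
      calc ∫⁻ x in Ω, ENNReal.ofReal (∑ i, (v i t (x 0 / l0) (x 1 / l1) -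
            F i (x 0 / l0, x 1 / l1)) ^ 2)
          = ∫⁻ x in Ω, ∑ i, (fun p : ℝ × ℝ => ENNReal.ofReal ((v i t p.1 p.2 - F i p) ^ 2))
              (Lc d l0 l1 x) := by
            refine lintegral_congr fun x => ?_
            rw [ENNReal.ofReal_sum_of_nonneg fun i _ => sq_nonneg _]
            simp only [Lc_apply]
        _ = ∑ i, ∫⁻ x in Ω, (fun p : ℝ × ℝ => ENNReal.ofReal ((v i t p.1 p.2 - F i p) ^ 2))
              (Lc d l0 l1 x) := by
            refine lintegral_finset_sum' _ fun i _ => ?_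
            exact ((hae i).mono_ac hac).comp_aemeasurable hLm.aemeasurable
        _ = ∑ i, ∫⁻ p, ENNReal.ofReal ((v i t p.1 p.2 - F i p) ^ 2)
              ∂(Measure.map (Lc d l0 l1) (volume.restrict Ω)) := by
            refine Finset.sum_congr rfl fun i _ => ?_
            rw [lintegral_map' ((hae i).mono_ac hac) hLm.aemeasurable]
        _ ≤ ∑ i, C * ∫⁻ p in sq, ENNReal.ofReal ((v i t p.1 p.2 - F i p) ^ 2) := by
            refine Finset.sum_le_sum fun i _ => ?_
            refine (lintegral_mono' hpush le_rfl).trans ?_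
            rw [lintegral_smul_measure, smul_eq_mul]
    have h3 : Tendsto (fun t => ∑ i, C * ∫⁻ p in sq, ENNReal.ofReal ((v i t p.1 p.2 - F i p) ^ 2))
        (𝓝[>] 0) (𝓝 (∑ i : Fin (d + 2), C * 0)) :=
      tendsto_finsetSum _ fun i _ => ENNReal.Tendsto.const_mul (h i).init (Or.inr hC)
    simp only [mul_zero, Finset.sum_const_zero] at h3
    refine tendsto_of_tendsto_of_tendsto_of_le_of_le' tendsto_const_nhds h3
      (Eventually.of_forall fun _ => bot_le) ?_
    filter_upwards [Ioc_mem_nhdsGT hT] with t ht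
    exact h1 t ht
  · -- energy
    have key : ∀ G : ℝ × ℝ × ℝ → ℝ, IntegrableOn G (Ioo 0 T ×ˢ sq) →
        IntegrableOn (fun q : ℝ × Sp (d + 2) => G (q.1, q.2 0 / l0, q.2 1 / l1)) (Ioo 0 T ×ˢ Ω) := by
      intro G hG
      have hG' : Integrable G ((volume.restrict (Ioo 0 T)).prod (volume.restrict sq)) := by
        unfold IntegrableOn at hG
        rwa [Measure.volume_eq_prod, ← Measure.prod_restrict] at hG
      have hG2 : Integrable G ((volume.restrict (Ioo 0 T)).prod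
          (C • (volume.restrict sq : Measure (ℝ × ℝ)))) := by
        rw [Measure.prod_smul_right]
        exact hG'.smul_measure hC
      have hG3 : Integrable G ((volume.restrict (Ioo 0 T)).prod
          (Measure.map (Lc d l0 l1) (volume.restrict Ω))) :=
        hG2.mono_measure (Measure.prod_mono le_rfl hpush)
      have e : (volume.restrict (Ioo 0 T)).prod (Measure.map (Lc d l0 l1) (volume.restrict Ω)) =
          Measure.map (Prod.map id (Lc d l0 l1)) ((volume.restrict (Ioo 0 T)).prod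
            (volume.restrict Ω)) := by
        rw [← Measure.map_prod_map _ _ measurable_id hLm, Measure.map_id]
      rw [e] at hG3
      have hG4 := hG3.comp_measurable (measurable_id.prodMap hLm)
      unfold IntegrableOn
      rw [Measure.volume_eq_prod, ← Measure.prod_restrict]
      refine hG4.congr (Eventually.of_forall fun q => ?_)
      show G (q.1, Lc d l0 l1 q.2) = G (q.1, (q.2 0 / l0, q.2 1 / l1))
      rw [Lc_apply]
    intro i j
    by_cases hj : j = 0
    · have h1 := (key _ (h i).ex).mul_const ((l0⁻¹) ^ 2)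
      refine IntegrableOn.congr_fun h1 ?_ (measurableSet_Ioo.prod hΩo.measurableSet)
      intro q hq
      show vx i q.1 (q.2 0 / l0) (q.2 1 / l1) ^ 2 * (l0⁻¹) ^ 2 =
        pd j (fun y : Sp (d + 2) => v i q.1 (y 0 / l0) (y 1 / l1)) q.2 ^ 2
      rw [hpd i j q.1 (Ioo_subset_Ioc_self hq.1) q.2 hq.2, if_pos hj, div_eq_mul_inv]
      ring
    · by_cases hj1 : j = 1
      · have h1 := (key _ (h i).ey).mul_const ((l1⁻¹) ^ 2)
        refine IntegrableOn.congr_fun h1 ?_ (measurableSet_Ioo.prod hΩo.measurableSet)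
        intro q hq
        show vy i q.1 (q.2 0 / l0) (q.2 1 / l1) ^ 2 * (l1⁻¹) ^ 2 =
          pd j (fun y : Sp (d + 2) => v i q.1 (y 0 / l0) (y 1 / l1)) q.2 ^ 2
        rw [hpd i j q.1 (Ioo_subset_Ioc_self hq.1) q.2 hq.2, if_neg hj, if_pos hj1, div_eq_mul_inv]
        ring
      · have h1 : IntegrableOn (fun _ : ℝ × Sp (d + 2) => (0:ℝ)) (Ioo 0 T ×ˢ Ω) := by
          simp [IntegrableOn]
        refine h1.congr_fun ?_ (measurableSet_Ioo.prod hΩo.measurableSet)
        intro q hq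
        show 0 = pd j (fun y : Sp (d + 2) => v i q.1 (y 0 / l0) (y 1 / l1)) q.2 ^ 2
        rw [hpd i j q.1 (Ioo_subset_Ioc_self hq.1) q.2 hq.2, if_neg hj, if_neg hj1]
        norm_num

end Pool.Agent.V5helper23.PF
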